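import Pool.Agent.H902R2.HO.Stubs

/-!
ROOM HO, task T5 (helper66): the curvature polynomial of the Cheeger metric (`W = 1`, `ε = 0`)
is a sum of squares; its zero set.
-/

namespace H66HO

open H902HO

/-- operations with `W = 1` -/
def O1 (Q : T ℝ → T ℝ) (v : T ℝ) : Ops ℝ (T ℝ) := ⟨T.dot, T.cr, one3.ap, Q, v⟩

theorem T.ext' {a b : T ℝ} (h1 : a.x = b.x) (h2 : a.y = b.y) (h3 : a.z = b.z) : a = b :=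
  T.ext h1 h2 h3

variable (Q : T ℝ → T ℝ) (v : T ℝ)

theorem J_mk (a b c d : T ℝ) : J (O1 Q v) (a, b) (c, d) = (T.cr a c, T.cr b d) := rfl

theorem pr_mk (a b c d : T ℝ) : pr (O1 Q v) (a, b) (c, d) = T.dot a c + T.dot b d := rfl

theorem dot_mk (a b c d e f : ℝ) :
    T.dot (⟨a, b, c⟩ : T ℝ) ⟨d, e, f⟩ = a * d + b * e + c * f := rfl

theorem cr_mk (a b c d e f : ℝ) :
    T.cr (⟨a, b, c⟩ : T ℝ) ⟨d, e, f⟩ = ⟨b * f - c * e, c * d - a * f, a * e - b * d⟩ := rfl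

theorem K_mk (z : T ℝ × T ℝ) (a b c d e f : ℝ) :
    K (O1 Q v) 0 0 z (⟨a, b, c⟩, ⟨d, e, f⟩) =
      (⟨2 * a + d, 2 * b + e, 2 * c + f⟩, ⟨a + 2 * d, b + 2 * e, c + 2 * f⟩) := by
  refine Prod.ext ?_ ?_ <;> refine T.ext ?_ ?_ ?_ <;> simp [K, O1, Sym.ap, one3] <;> ring

theorem K1_mk (z u : T ℝ × T ℝ) :
    K1 (O1 Q v) 0 z u = (⟨0, 0, 0⟩, ⟨0, 0, 0⟩) := by
  refine Prod.ext ?_ ?_ <;> refine T.ext ?_ ?_ ?_ <;> simp [K1]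

/-- the point -/
def zz (c s : ℝ) : T ℝ × T ℝ := (⟨1, 0, 0⟩, ⟨c, s, 0⟩)
/-- the tangent vectors -/
def av (c s l2 l3 m1 m2 : ℝ) : T ℝ × T ℝ := (⟨0, l3, -l2⟩, ⟨-(s * m2), c * m2, -m1⟩)
/-- arbitrary vectors -/
def gv (c s g0 g1 g2 h0 h1 h2 : ℝ) : T ℝ × T ℝ :=
  (⟨g0, g2, -g1⟩, ⟨c * h0 - s * h2, s * h0 + c * h2, -h1⟩)

theorem J_av (c s l2 l3 m1 m2 : ℝ) (h : c ^ 2 + s ^ 2 = 1) :
    J (O1 Q v) (zz c s) (av c s l2 l3 m1 m2) = (⟨0, l2, l3⟩, ⟨-(s * m1), c * m1, m2⟩) := by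
  simp only [zz, av, J_mk, cr_mk]
  refine Prod.ext ?_ ?_ <;> refine T.ext ?_ ?_ ?_ <;> dsimp only <;> try ring
  linear_combination m2 * h

theorem J_gv (c s g0 g1 g2 h0 h1 h2 : ℝ) (h : c ^ 2 + s ^ 2 = 1) :
    J (O1 Q v) (zz c s) (gv c s g0 g1 g2 h0 h1 h2) =
      (⟨0, g1, g2⟩, ⟨-(s * h1), c * h1, h2⟩) := by
  simp only [zz, gv, J_mk, cr_mk]
  refine Prod.ext ?_ ?_ <;> refine T.ext ?_ ?_ ?_ <;> dsimp only <;> try ring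
  linear_combination h2 * h

/-- the value of `Wz` -/
def wv (c s l2 l3 m1 m2 : ℝ) : T ℝ × T ℝ :=
  (⟨0, m2 + 2 * l3, -(2 * l2) - c * m1⟩,
    ⟨-(2 * s * m2) - s * l3, 2 * c * m2 + c * l3, -(2 * m1) - c * l2⟩)

theorem Wz_av (c s l2 l3 m1 m2 : ℝ) (h : c ^ 2 + s ^ 2 = 1) :
    Wz (O1 Q v) 0 0 (zz c s) (av c s l2 l3 m1 m2) = wv c s l2 l3 m1 m2 := by
  simp only [Wz, J_av Q v c s l2 l3 m1 m2 h, K_mk]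
  simp only [zz, J_mk, cr_mk, wv]
  refine Prod.ext ?_ ?_ <;> refine T.ext ?_ ?_ ?_ <;>
    simp only [Prod.fst_neg, Prod.snd_neg, T.neg_x, T.neg_y, T.neg_z] <;> try ring
  linear_combination (-(2 * m1)) * h

/-- the value of `W1` -/
def w1v (c s l2 l3 m1 m2 k2 k3 n1 n2 : ℝ) : T ℝ × T ℝ :=
  (⟨-(m2 * n2) - 2 * m2 * k3 - 2 * l3 * n2 - 4 * l3 * k3 - 4 * l2 * k2 - 2 * c * m1 * k2
      - 2 * c * l2 * n1 - c ^ 2 * m1 * n1,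
    -(2 * s * l2 * n1) - c * s * m1 * n1,
    s * m2 * n1 - 2 * s * m1 * n2 - s * l3 * n1 - c * s * l2 * n2⟩,
   ⟨-(2 * m1 * k2) - 4 * c * m2 * n2 - 2 * c * m2 * k3 - 4 * c * m1 * n1 - 2 * c * l3 * n2
      - c * l3 * k3 - c * l2 * k2 - 2 * c ^ 2 * l2 * n1,
    -(4 * s * m2 * n2) - 2 * s * m2 * k3 - 4 * s * m1 * n1 - 2 * s * l3 * n2 - s * l3 * k3
      - 2 * c * s * l2 * n1,
    s * m2 * k2 - s * l3 * k2 + 2 * s * l2 * k3 + c * s * m1 * k3⟩)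

theorem W1_av (c s l2 l3 m1 m2 k2 k3 n1 n2 : ℝ) (h : c ^ 2 + s ^ 2 = 1) :
    W1 (O1 Q v) 0 0 (zz c s) (wv c s l2 l3 m1 m2) (av c s k2 k3 n1 n2) =
      w1v c s l2 l3 m1 m2 k2 k3 n1 n2 := by
  simp only [W1, J_av Q v c s k2 k3 n1 n2 h, K1_mk, K_mk]
  simp only [zz, wv, av, J_mk, cr_mk, K_mk, w1v]
  refine Prod.ext ?_ ?_ <;> refine T.ext ?_ ?_ ?_ <;>
    simp only [Prod.fst_neg, Prod.snd_neg, Prod.fst_add, Prod.snd_add, T.neg_x, T.neg_y, T.neg_z,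
      T.add_x, T.add_y, T.add_z] <;> ring

/-- the value of `grad` -/
def grv (c s l2 l3 m1 m2 k2 k3 n1 n2 : ℝ) : T ℝ × T ℝ :=
  (⟨m2 * k3 + l3 * n2 + 4 * l3 * k3 + 4 * l2 * k2 + c * m1 * k2 + c * l2 * n1,
    s * m1 * k2 + s * l2 * n1,
    s * m1 * k3 + s * l3 * n1⟩,
   ⟨m1 * k2 + l2 * n1 + 4 * c * m2 * n2 + c * m2 * k3 + 4 * c * m1 * n1 + c * l3 * n2,
    4 * s * m2 * n2 + s * m2 * k3 + 4 * s * m1 * n1 + s * l3 * n2,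
    -(s * m2 * k2) - s * l2 * n2⟩)

/-- the value of `J grad` -/
def jgv (c s l2 l3 m1 m2 k2 k3 n1 n2 : ℝ) : T ℝ × T ℝ :=
  (⟨0, -(s * m1 * k3) - s * l3 * n1, s * m1 * k2 + s * l2 * n1⟩,
   ⟨-(m2 * k2) - l2 * n2 + c ^ 2 * m2 * k2 + c ^ 2 * l2 * n2,
    c * s * m2 * k2 + c * s * l2 * n2,
    -(s * m1 * k2) - s * l2 * n1⟩)

theorem grad_av (c s l2 l3 m1 m2 k2 k3 n1 n2 : ℝ) (h : c ^ 2 + s ^ 2 = 1) :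
    J (O1 Q v) (zz c s) (grad (O1 Q v) 0 0 (av c s l2 l3 m1 m2) (av c s k2 k3 n1 n2) (zz c s)) =
      jgv c s l2 l3 m1 m2 k2 k3 n1 n2 := by
  have : grad (O1 Q v) 0 0 (av c s l2 l3 m1 m2) (av c s k2 k3 n1 n2) (zz c s) =
      grv c s l2 l3 m1 m2 k2 k3 n1 n2 := by
    simp only [grad, J_av Q v c s k2 k3 n1 n2 h, J_av Q v c s l2 l3 m1 m2 h, K1_mk, K_mk]
    simp only [av, cr_mk, grv, O1]
    refine Prod.ext ?_ ?_ <;> refine T.ext ?_ ?_ ?_ <;>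
      simp only [Prod.fst_add, Prod.snd_add, T.add_x, T.add_y, T.add_z, T.smul_x, T.smul_y,
        T.smul_z, zero_mul, add_zero] <;> ring
  rw [this]
  simp only [zz, grv, J_mk, cr_mk, jgv]
  refine Prod.ext ?_ ?_ <;> refine T.ext ?_ ?_ ?_ <;> dsimp only <;> try ring
  linear_combination (-(m2 * k2) - l2 * n2) * h

set_option maxRecDepth 100000 in
theorem PP_slice (c s l2 l3 m1 m2 k2 k3 n1 n2 g0 g1 g2 h0 h1 h2 : ℝ) (h : c ^ 2 + s ^ 2 = 1) :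
    PP (O1 Q v) 0 0 (zz c s) (av c s l2 l3 m1 m2) (av c s k2 k3 n1 n2)
      (gv c s g0 g1 g2 h0 h1 h2) =
    6 * h2 ^ 2 + 6 * h1 ^ 2 + 6 * g2 * h2 + 6 * g2 ^ 2 + 6 * g1 ^ 2 + 32 * m2 ^ 2 * n1 ^ 2 + 4 *
    m2 ^ 2 * k2 ^ 2 - 64 * m1 * m2 * n1 * n2 - 2 * m1 * m2 * k3 * n1 + 32 * m1 ^ 2 * n2 ^ 2 + 2
    * m1 ^ 2 * k3 * n2 + 4 * m1 ^ 2 * k3 ^ 2 + 10 * m1 ^ 2 * k2 ^ 2 + 2 * l3 * m2 * n1 ^ 2 + 2 *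
    l3 * m2 * k2 ^ 2 - 2 * l3 * m1 * n1 * n2 - 8 * l3 * m1 * k3 * n1 + 4 * l3 ^ 2 * n1 ^ 2 + 32
    * l3 ^ 2 * k2 ^ 2 - 8 * l2 * m2 * k2 * n2 - 2 * l2 * m2 * k2 * k3 - 20 * l2 * m1 * k2 * n1 -
    2 * l2 * l3 * k2 * n2 - 64 * l2 * l3 * k2 * k3 + 4 * l2 ^ 2 * n2 ^ 2 + 10 * l2 ^ 2 * n1 ^ 2
    + 2 * l2 ^ 2 * k3 * n2 + 32 * l2 ^ 2 * k3 ^ 2 + 18 * s * m2 * n1 * g1 + 6 * s * m2 * k2 * h1
    - 18 * s * m1 * n2 * g1 + 6 * s * m1 * k3 * g1 - 12 * s * m1 * k2 * h2 - 12 * s * m1 * k2 *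
    g2 - 6 * s * l3 * n1 * g1 - 18 * s * l3 * k2 * h1 - 6 * s * l2 * n2 * h1 + 12 * s * l2 * n1
    * h2 + 12 * s * l2 * n1 * g2 + 18 * s * l2 * k3 * h1 + 6 * c * g1 * h1 + 20 * c * m2 ^ 2 *
    k2 * n1 - 20 * c * m1 * m2 * k2 * n2 - 2 * c * m1 * m2 * k2 * k3 + 58 * c * l3 * m2 * k2 *
    n1 - 56 * c * l3 * m1 * k2 * n2 - 20 * c * l3 * m1 * k2 * k3 + 20 * c * l3 ^ 2 * k2 * n1 -
    20 * c * l2 * m2 * n1 * n2 - 56 * c * l2 * m2 * k3 * n1 + 20 * c * l2 * m1 * n2 ^ 2 + 58 * c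
    * l2 * m1 * k3 * n2 + 20 * c * l2 * m1 * k3 ^ 2 - 2 * c * l2 * l3 * n1 * n2 - 20 * c * l2 *
    l3 * k3 * n1 + 6 * c * s * m2 * k2 * g1 + 6 * c * s * m1 * k3 * h1 - 6 * c * s * l3 * n1 *
    h1 - 6 * c * s * l2 * n2 * g1 - 18 * c ^ 2 * m1 * m2 * k3 * n1 + 18 * c ^ 2 * m1 ^ 2 * k3 *
    n2 - 10 * c ^ 2 * m1 ^ 2 * k2 ^ 2 + 18 * c ^ 2 * l3 * m2 * n1 ^ 2 + 18 * c ^ 2 * l3 * m2 *
    k2 ^ 2 - 18 * c ^ 2 * l3 * m1 * n1 * n2 - 18 * c ^ 2 * l2 * m2 * k2 * k3 + 20 * c ^ 2 * l2 *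
    m1 * k2 * n1 - 18 * c ^ 2 * l2 * l3 * k2 * n2 - 10 * c ^ 2 * l2 ^ 2 * n1 ^ 2 + 18 * c ^ 2 *
    l2 ^ 2 * k3 * n2 - 6 * c ^ 3 * m1 * m2 * k2 * k3 + 6 * c ^ 3 * l3 * m2 * k2 * n1 + 6 * c ^ 3
    * l2 * m1 * k3 * n2 - 6 * c ^ 3 * l2 * l3 * n1 * n2 := by
  have J_mk' : ∀ a b : T ℝ × T ℝ, J (O1 Q v) a b = (T.cr a.1 b.1, T.cr a.2 b.2) := fun _ _ => rfl
  simp only [PP, F2, F1, two, three, Wz_av Q v _ _ _ _ _ _ h, W1_av Q v _ _ _ _ _ _ _ _ _ _ h,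
    grad_av Q v _ _ _ _ _ _ _ _ _ _ h, J_av Q v _ _ _ _ _ _ h, J_gv Q v _ _ _ _ _ _ _ _ h,
    K1_mk]
  simp only [wv, w1v, jgv, av, gv, zz, J_mk, cr_mk, K_mk, pr_mk, dot_mk]
  linear_combination (
    6 * h1 ^ 2 + 32 * m2 ^ 2 * n1 ^ 2 + 2 * m2 ^ 2 * k2 ^ 2 - 64 * m1 * m2 * n1 * n2 - 2 * m1 *
    m2 * k3 * n1 + 32 * m1 ^ 2 * n2 ^ 2 + 2 * m1 ^ 2 * k3 * n2 + 4 * m1 ^ 2 * k3 ^ 2 + 6 * m1 ^
    2 * k2 ^ 2 + 2 * l3 * m2 * n1 ^ 2 + 2 * l3 * m2 * k2 ^ 2 - 2 * l3 * m1 * n1 * n2 - 8 * l3 *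
    m1 * k3 * n1 + 4 * l3 ^ 2 * n1 ^ 2 - 4 * l2 * m2 * k2 * n2 - 2 * l2 * m2 * k2 * k3 - 12 * l2
    * m1 * k2 * n1 - 2 * l2 * l3 * k2 * n2 + 2 * l2 ^ 2 * n2 ^ 2 + 6 * l2 ^ 2 * n1 ^ 2 + 2 * l2
    ^ 2 * k3 * n2 + 32 * c * m2 ^ 2 * k2 * n1 - 12 * c * m1 * k2 * h0 - 32 * c * m1 * m2 * k2 *
    n2 - 10 * c * m1 * m2 * k2 * k3 + 2 * c * l3 * m2 * k2 * n1 + 8 * c * l3 * m1 * k2 * n2 + 12
    * c * l2 * n1 * h0 - 32 * c * l2 * m2 * n1 * n2 + 8 * c * l2 * m2 * k3 * n1 + 32 * c * l2 *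
    m1 * n2 ^ 2 + 2 * c * l2 * m1 * k3 * n2 - 10 * c * l2 * l3 * n1 * n2 + 10 * c ^ 2 * m2 ^ 2 *
    k2 ^ 2 - 20 * c ^ 2 * l2 * m2 * k2 * n2 + 10 * c ^ 2 * l2 ^ 2 * n2 ^ 2) * h

/-! ### the sum of squares -/

/-- square norm -/
def nn (u : T ℝ) : ℝ := T.dot u u

/-- auxiliary vector -/
def B1 (x L L1 P P1 : T ℝ) : T ℝ := T.cr x (T.dot P1 x • L + -(T.dot P x • L1))

/-- auxiliary vector -/
def B3 (x y L M L1 M1 P P1 : T ℝ) : T ℝ :=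
  (T.dot (T.cr (L + P) L1 + -T.cr (L1 + P1) L) x) • x +
    (T.dot (T.cr (M + P) M1 + -T.cr (M1 + P1) M) y) • y + -T.cr P P1

/-- the sum of squares -/
def RR (x y L M L1 M1 Lg Mg : T ℝ) : ℝ :=
  4 * nn (T.cr L L1) + 4 * nn (T.cr M M1) + nn (T.cr (L + M) (L1 + M1)) +
    3 * (nn (B1 x L L1 (L + M) (L1 + M1) + -Lg) + nn (B1 y M M1 (L + M) (L1 + M1) + -Mg) +
      nn (B3 x y L M L1 M1 (L + M) (L1 + M1) + -Lg + -Mg))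

theorem RR_slice (c s l2 l3 m1 m2 k2 k3 n1 n2 g1 g2 h1 h2 : ℝ) (h : c ^ 2 + s ^ 2 = 1) :
    RR ⟨1, 0, 0⟩ ⟨c, s, 0⟩ ⟨0, l2, l3⟩ ⟨-(s * m1), c * m1, m2⟩ ⟨0, k2, k3⟩
      ⟨-(s * n1), c * n1, n2⟩ ⟨0, g1, g2⟩ ⟨-(s * h1), c * h1, h2⟩ =
    6 * h2 ^ 2 + 6 * h1 ^ 2 + 6 * g2 * h2 + 6 * g2 ^ 2 + 6 * g1 ^ 2 + 32 * m2 ^ 2 * n1 ^ 2 + 4 *
    m2 ^ 2 * k2 ^ 2 - 64 * m1 * m2 * n1 * n2 - 2 * m1 * m2 * k3 * n1 + 32 * m1 ^ 2 * n2 ^ 2 + 2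
    * m1 ^ 2 * k3 * n2 + 4 * m1 ^ 2 * k3 ^ 2 + 10 * m1 ^ 2 * k2 ^ 2 + 2 * l3 * m2 * n1 ^ 2 + 2 *
    l3 * m2 * k2 ^ 2 - 2 * l3 * m1 * n1 * n2 - 8 * l3 * m1 * k3 * n1 + 4 * l3 ^ 2 * n1 ^ 2 + 32
    * l3 ^ 2 * k2 ^ 2 - 8 * l2 * m2 * k2 * n2 - 2 * l2 * m2 * k2 * k3 - 20 * l2 * m1 * k2 * n1 -
    2 * l2 * l3 * k2 * n2 - 64 * l2 * l3 * k2 * k3 + 4 * l2 ^ 2 * n2 ^ 2 + 10 * l2 ^ 2 * n1 ^ 2
    + 2 * l2 ^ 2 * k3 * n2 + 32 * l2 ^ 2 * k3 ^ 2 + 18 * s * m2 * n1 * g1 + 6 * s * m2 * k2 * h1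
    - 18 * s * m1 * n2 * g1 + 6 * s * m1 * k3 * g1 - 12 * s * m1 * k2 * h2 - 12 * s * m1 * k2 *
    g2 - 6 * s * l3 * n1 * g1 - 18 * s * l3 * k2 * h1 - 6 * s * l2 * n2 * h1 + 12 * s * l2 * n1
    * h2 + 12 * s * l2 * n1 * g2 + 18 * s * l2 * k3 * h1 + 6 * c * g1 * h1 + 20 * c * m2 ^ 2 *
    k2 * n1 - 20 * c * m1 * m2 * k2 * n2 - 2 * c * m1 * m2 * k2 * k3 + 58 * c * l3 * m2 * k2 *
    n1 - 56 * c * l3 * m1 * k2 * n2 - 20 * c * l3 * m1 * k2 * k3 + 20 * c * l3 ^ 2 * k2 * n1 -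
    20 * c * l2 * m2 * n1 * n2 - 56 * c * l2 * m2 * k3 * n1 + 20 * c * l2 * m1 * n2 ^ 2 + 58 * c
    * l2 * m1 * k3 * n2 + 20 * c * l2 * m1 * k3 ^ 2 - 2 * c * l2 * l3 * n1 * n2 - 20 * c * l2 *
    l3 * k3 * n1 + 6 * c * s * m2 * k2 * g1 + 6 * c * s * m1 * k3 * h1 - 6 * c * s * l3 * n1 *
    h1 - 6 * c * s * l2 * n2 * g1 - 18 * c ^ 2 * m1 * m2 * k3 * n1 + 18 * c ^ 2 * m1 ^ 2 * k3 *
    n2 - 10 * c ^ 2 * m1 ^ 2 * k2 ^ 2 + 18 * c ^ 2 * l3 * m2 * n1 ^ 2 + 18 * c ^ 2 * l3 * m2 *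
    k2 ^ 2 - 18 * c ^ 2 * l3 * m1 * n1 * n2 - 18 * c ^ 2 * l2 * m2 * k2 * k3 + 20 * c ^ 2 * l2 *
    m1 * k2 * n1 - 18 * c ^ 2 * l2 * l3 * k2 * n2 - 10 * c ^ 2 * l2 ^ 2 * n1 ^ 2 + 18 * c ^ 2 *
    l2 ^ 2 * k3 * n2 - 6 * c ^ 3 * m1 * m2 * k2 * k3 + 6 * c ^ 3 * l3 * m2 * k2 * n1 + 6 * c ^ 3
    * l2 * m1 * k3 * n2 - 6 * c ^ 3 * l2 * l3 * n1 * n2 := by
  simp only [RR, nn, B1, B3, T.dot, T.cr, T.add_x, T.add_y, T.add_z, T.neg_x, T.neg_y, T.neg_z,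
    T.smul_x, T.smul_y, T.smul_z]
  linear_combination (
    6 * h1 ^ 2 + 32 * m2 ^ 2 * n1 ^ 2 + 3 * m2 ^ 2 * k2 ^ 2 - 64 * m1 * m2 * n1 * n2 - 2 * m1 *
    m2 * k3 * n1 + 32 * m1 ^ 2 * n2 ^ 2 + 2 * m1 ^ 2 * k3 * n2 + 4 * m1 ^ 2 * k3 ^ 2 + 10 * m1 ^
    2 * k2 ^ 2 + 2 * l3 * m2 * n1 ^ 2 - 2 * l3 * m1 * n1 * n2 - 8 * l3 * m1 * k3 * n1 + 4 * l3 ^
    2 * n1 ^ 2 - 6 * l2 * m2 * k2 * n2 - 20 * l2 * m1 * k2 * n1 + 3 * l2 ^ 2 * n2 ^ 2 + 10 * l2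
    ^ 2 * n1 ^ 2 + 24 * s * m2 * n1 * g1 + 6 * s * m2 * k2 * h1 - 24 * s * m1 * n2 * g1 - 6 * s
    * m1 * k3 * g1 - 6 * s * m1 * k2 * h2 + 6 * s * l3 * n1 * g1 - 6 * s * l2 * n2 * h1 + 6 * s
    * l2 * n1 * h2 + 24 * s ^ 2 * m2 ^ 2 * n1 ^ 2 + 3 * s ^ 2 * m2 ^ 2 * k2 ^ 2 - 48 * s ^ 2 *
    m1 * m2 * n1 * n2 + 6 * s ^ 2 * m1 * m2 * k3 * n1 + 24 * s ^ 2 * m1 ^ 2 * n2 ^ 2 - 6 * s ^ 2
    * m1 ^ 2 * k3 * n2 - 3 * s ^ 2 * m1 ^ 2 * k3 ^ 2 + 3 * s ^ 2 * m1 ^ 2 * k2 ^ 2 - 6 * s ^ 2 *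
    l3 * m2 * n1 ^ 2 + 6 * s ^ 2 * l3 * m1 * n1 * n2 + 6 * s ^ 2 * l3 * m1 * k3 * n1 - 3 * s ^ 2
    * l3 ^ 2 * n1 ^ 2 - 6 * s ^ 2 * l2 * m2 * k2 * n2 - 6 * s ^ 2 * l2 * m1 * k2 * n1 + 3 * s ^
    2 * l2 ^ 2 * n2 ^ 2 + 3 * s ^ 2 * l2 ^ 2 * n1 ^ 2 + 48 * s ^ 4 * m2 ^ 2 * n1 ^ 2 - 96 * s ^
    4 * m1 * m2 * n1 * n2 - 24 * s ^ 4 * m1 * m2 * k3 * n1 + 48 * s ^ 4 * m1 ^ 2 * n2 ^ 2 + 24 *
    s ^ 4 * m1 ^ 2 * k3 * n2 + 3 * s ^ 4 * m1 ^ 2 * k3 ^ 2 + 3 * s ^ 4 * m1 ^ 2 * k2 ^ 2 + 24 *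
    s ^ 4 * l3 * m2 * n1 ^ 2 - 24 * s ^ 4 * l3 * m1 * n1 * n2 - 6 * s ^ 4 * l3 * m1 * k3 * n1 +
    3 * s ^ 4 * l3 ^ 2 * n1 ^ 2 - 6 * s ^ 4 * l2 * m1 * k2 * n1 + 3 * s ^ 4 * l2 ^ 2 * n1 ^ 2 +
    18 * c * m2 ^ 2 * k2 * n1 - 18 * c * m1 * m2 * k2 * n2 + 72 * c * l3 * m2 * k2 * n1 - 72 * c
    * l3 * m1 * k2 * n2 - 18 * c * l3 * m1 * k2 * k3 + 18 * c * l3 ^ 2 * k2 * n1 - 18 * c * l2 *
    m2 * n1 * n2 - 72 * c * l2 * m2 * k3 * n1 + 18 * c * l2 * m1 * n2 ^ 2 + 72 * c * l2 * m1 *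
    k3 * n2 + 18 * c * l2 * m1 * k3 ^ 2 - 18 * c * l2 * l3 * k3 * n1 + 24 * c * s ^ 2 * m2 ^ 2 *
    k2 * n1 - 24 * c * s ^ 2 * m1 * m2 * k2 * n2 - 6 * c * s ^ 2 * m1 * m2 * k2 * k3 + 6 * c * s
    ^ 2 * l3 * m2 * k2 * n1 - 24 * c * s ^ 2 * l2 * m2 * n1 * n2 + 24 * c * s ^ 2 * l2 * m1 * n2
    ^ 2 + 6 * c * s ^ 2 * l2 * m1 * k3 * n2 - 6 * c * s ^ 2 * l2 * l3 * n1 * n2 + 24 * c ^ 2 *
    m2 ^ 2 * n1 ^ 2 + 3 * c ^ 2 * m2 ^ 2 * k2 ^ 2 - 48 * c ^ 2 * m1 * m2 * n1 * n2 - 18 * c ^ 2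
    * m1 * m2 * k3 * n1 + 24 * c ^ 2 * m1 ^ 2 * n2 ^ 2 + 18 * c ^ 2 * m1 ^ 2 * k3 * n2 + 3 * c ^
    2 * m1 ^ 2 * k3 ^ 2 + 18 * c ^ 2 * l3 * m2 * n1 ^ 2 - 18 * c ^ 2 * l3 * m1 * n1 * n2 - 6 * c
    ^ 2 * l3 * m1 * k3 * n1 + 3 * c ^ 2 * l3 ^ 2 * n1 ^ 2 - 6 * c ^ 2 * l2 * m2 * k2 * n2 + 3 *
    c ^ 2 * l2 ^ 2 * n2 ^ 2 + 96 * c ^ 2 * s ^ 2 * m2 ^ 2 * n1 ^ 2 - 192 * c ^ 2 * s ^ 2 * m1 *
    m2 * n1 * n2 - 48 * c ^ 2 * s ^ 2 * m1 * m2 * k3 * n1 + 96 * c ^ 2 * s ^ 2 * m1 ^ 2 * n2 ^ 2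
    + 48 * c ^ 2 * s ^ 2 * m1 ^ 2 * k3 * n2 + 6 * c ^ 2 * s ^ 2 * m1 ^ 2 * k3 ^ 2 + 3 * c ^ 2 *
    s ^ 2 * m1 ^ 2 * k2 ^ 2 + 48 * c ^ 2 * s ^ 2 * l3 * m2 * n1 ^ 2 - 48 * c ^ 2 * s ^ 2 * l3 *
    m1 * n1 * n2 - 12 * c ^ 2 * s ^ 2 * l3 * m1 * k3 * n1 + 6 * c ^ 2 * s ^ 2 * l3 ^ 2 * n1 ^ 2
    - 6 * c ^ 2 * s ^ 2 * l2 * m1 * k2 * n1 + 3 * c ^ 2 * s ^ 2 * l2 ^ 2 * n1 ^ 2 + 24 * c ^ 3 *
    m2 ^ 2 * k2 * n1 - 24 * c ^ 3 * m1 * m2 * k2 * n2 - 6 * c ^ 3 * m1 * m2 * k2 * k3 + 6 * c ^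
    3 * l3 * m2 * k2 * n1 - 24 * c ^ 3 * l2 * m2 * n1 * n2 + 24 * c ^ 3 * l2 * m1 * n2 ^ 2 + 6 *
    c ^ 3 * l2 * m1 * k3 * n2 - 6 * c ^ 3 * l2 * l3 * n1 * n2 + 48 * c ^ 4 * m2 ^ 2 * n1 ^ 2 -
    96 * c ^ 4 * m1 * m2 * n1 * n2 - 24 * c ^ 4 * m1 * m2 * k3 * n1 + 48 * c ^ 4 * m1 ^ 2 * n2 ^
    2 + 24 * c ^ 4 * m1 ^ 2 * k3 * n2 + 3 * c ^ 4 * m1 ^ 2 * k3 ^ 2 + 24 * c ^ 4 * l3 * m2 * n1
    ^ 2 - 24 * c ^ 4 * l3 * m1 * n1 * n2 - 6 * c ^ 4 * l3 * m1 * k3 * n1 + 3 * c ^ 4 * l3 ^ 2 *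
    n1 ^ 2) * h

/-! ### rotations -/

/-- rotation about the first axis -/
def rho (κ σ : ℝ) (u : T ℝ) : T ℝ := ⟨u.x, κ * u.y + σ * u.z, -(σ * u.y) + κ * u.z⟩

section rot

variable (κ σ : ℝ)

theorem rho_add (a b : T ℝ) : rho κ σ (a + b) = rho κ σ a + rho κ σ b := by
  refine T.ext ?_ ?_ ?_ <;> simp [rho] <;> ring

theorem rho_neg (a : T ℝ) : rho κ σ (-a) = -rho κ σ a := by
  refine T.ext ?_ ?_ ?_ <;> simp [rho] <;> ring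

theorem rho_smul (r : ℝ) (a : T ℝ) : rho κ σ (r • a) = r • rho κ σ a := by
  refine T.ext ?_ ?_ ?_ <;> simp [rho] <;> ring

theorem rho_dot (h : κ ^ 2 + σ ^ 2 = 1) (a b : T ℝ) :
    T.dot (rho κ σ a) (rho κ σ b) = T.dot a b := by
  simp only [T.dot, rho]
  linear_combination (a.y * b.y + a.z * b.z) * h

theorem rho_cr (h : κ ^ 2 + σ ^ 2 = 1) (a b : T ℝ) :
    T.cr (rho κ σ a) (rho κ σ b) = rho κ σ (T.cr a b) := by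
  refine T.ext ?_ ?_ ?_ <;> simp only [T.cr, rho]
  · linear_combination (a.y * b.z - a.z * b.y) * h
  · ring
  · ring

/-- the inverse rotation -/
theorem rho_inv (h : κ ^ 2 + σ ^ 2 = 1) (a : T ℝ) : rho κ (-σ) (rho κ σ a) = a := by
  refine T.ext ?_ ?_ ?_ <;> simp only [rho]
  · linear_combination (a.y) * h
  · linear_combination (a.z) * h

theorem RR_rho (h : κ ^ 2 + σ ^ 2 = 1) (x y L M L1 M1 Lg Mg : T ℝ) :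
    RR (rho κ σ x) (rho κ σ y) (rho κ σ L) (rho κ σ M) (rho κ σ L1) (rho κ σ M1)
      (rho κ σ Lg) (rho κ σ Mg) = RR x y L M L1 M1 Lg Mg := by
  simp only [RR, nn, B1, B3, ← rho_add, ← rho_neg, ← rho_smul, rho_dot κ σ h, rho_cr κ σ h]

theorem ohom_rho (h : κ ^ 2 + σ ^ 2 = 1) (q : Sym ℝ) (v : T ℝ) :
    OHom (ops one3 q v) (O1 (fun a => rho κ σ (q.ap (rho κ (-σ) a))) (rho κ σ v))
      (id : ℝ → ℝ) (rho κ σ) where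
  add _ _ := rfl
  sub _ _ := rfl
  mul _ _ := rfl
  vadd := rho_add κ σ
  vneg := rho_neg κ σ
  smul := rho_smul κ σ
  dot a b := (rho_dot κ σ h a b).symm
  cr a b := (rho_cr κ σ h a b).symm
  W a := by
    refine T.ext ?_ ?_ ?_ <;> simp [rho, ops, O1, Sym.ap, one3]
  Q a := by
    simp only [ops, O1, rho_inv κ σ h]
  v := rfl

end rot

/-- The curvature polynomial of the Cheeger metric is a sum of squares. -/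
theorem PP_eq (q : Sym ℝ) (v y a1 a2 b1 b2 g1 g2 : T ℝ) (hy : T.dot y y = 1)
    (ha1 : a1.x = 0) (ha2 : T.dot y a2 = 0) (hb1 : b1.x = 0) (hb2 : T.dot y b2 = 0) :
    PP (ops one3 q v) 0 0 (⟨1, 0, 0⟩, y) (a1, a2) (b1, b2) (g1, g2) =
      RR ⟨1, 0, 0⟩ y (T.cr ⟨1, 0, 0⟩ a1) (T.cr y a2) (T.cr ⟨1, 0, 0⟩ b1) (T.cr y b2)
        (T.cr ⟨1, 0, 0⟩ g1) (T.cr y g2) := by
  obtain ⟨κ, σ, hκ, hσ⟩ : ∃ κ σ : ℝ, κ ^ 2 + σ ^ 2 = 1 ∧ -(σ * y.y) + κ * y.z = 0 := by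
    by_cases h0 : y.y ^ 2 + y.z ^ 2 = 0
    · refine ⟨1, 0, by norm_num, ?_⟩
      have : y.z = 0 := by nlinarith [sq_nonneg y.y, sq_nonneg y.z]
      simp [this]
    · have hp : 0 < y.y ^ 2 + y.z ^ 2 := by positivity
      have hs := Real.sq_sqrt hp.le
      have hs0 : 0 < Real.sqrt (y.y ^ 2 + y.z ^ 2) := Real.sqrt_pos.2 hp
      refine ⟨y.y / Real.sqrt (y.y ^ 2 + y.z ^ 2), y.z / Real.sqrt (y.y ^ 2 + y.z ^ 2), ?_, ?_⟩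
      · rw [div_pow, div_pow, hs, ← add_div, div_self h0]
      · field_simp
        ring
  have hx : rho κ σ ⟨1, 0, 0⟩ = (⟨1, 0, 0⟩ : T ℝ) := by
    refine T.ext ?_ ?_ ?_ <;> simp [rho]
  set c := (rho κ σ y).x with hc
  set s := (rho κ σ y).y with hs
  have hyy : rho κ σ y = ⟨c, s, 0⟩ := T.ext rfl rfl hσ
  have hcs : c ^ 2 + s ^ 2 = 1 := by
    have := rho_dot κ σ hκ y y
    rw [hy, hyy] at this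
    simp only [T.dot] at this
    linarith
  -- tangent vectors
  have tan : ∀ a1 a2 : T ℝ, a1.x = 0 → T.dot y a2 = 0 → ∃ l2 l3 m1 m2,
      (rho κ σ a1, rho κ σ a2) = av c s l2 l3 m1 m2 := by
    intro a1 a2 h1 h2
    have h3 : c * (rho κ σ a2).x + s * (rho κ σ a2).y = 0 := by
      have := rho_dot κ σ hκ y a2
      rw [h2, hyy] at this
      simp only [T.dot] at this
      linarith
    refine ⟨-(rho κ σ a1).z, (rho κ σ a1).y, -(rho κ σ a2).z,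
      c * (rho κ σ a2).y - s * (rho κ σ a2).x, ?_⟩
    simp only [av]
    refine Prod.ext ?_ ?_ <;> refine T.ext ?_ ?_ ?_ <;> dsimp only
    · exact h1
    · ring
    · linear_combination (-(rho κ σ a2).x) * hcs + c * h3
    · linear_combination (-(rho κ σ a2).y) * hcs + s * h3
    · ring
  obtain ⟨l2, l3, m1, m2, hA⟩ := tan a1 a2 ha1 ha2
  obtain ⟨k2, k3, n1, n2, hB⟩ := tan b1 b2 hb1 hb2
  obtain ⟨g0, u1, u2, h0, w1, w2, hG⟩ : ∃ g0 u1 u2 h0 w1 w2,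
      (rho κ σ g1, rho κ σ g2) = gv c s g0 u1 u2 h0 w1 w2 := by
    refine ⟨(rho κ σ g1).x, -(rho κ σ g1).z, (rho κ σ g1).y,
      c * (rho κ σ g2).x + s * (rho κ σ g2).y, -(rho κ σ g2).z,
      c * (rho κ σ g2).y - s * (rho κ σ g2).x, ?_⟩
    simp only [gv]
    refine Prod.ext ?_ ?_ <;> refine T.ext ?_ ?_ ?_ <;> dsimp only
    · ring
    · linear_combination (-(rho κ σ g2).x) * hcs
    · linear_combination (-(rho κ σ g2).y) * hcs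
    · ring
  have key := (ohom_rho κ σ hκ q v).map_PP 0 0 (⟨1, 0, 0⟩, y) (a1, a2) (b1, b2) (g1, g2)
  simp only [OHom.mp, id] at key
  rw [key, hx, hyy, hA, hB, hG]
  have e1 := PP_slice (fun a => rho κ σ (q.ap (rho κ (-σ) a))) (rho κ σ v)
    c s l2 l3 m1 m2 k2 k3 n1 n2 g0 u1 u2 h0 w1 w2 hcs
  simp only [zz] at e1
  rw [e1, ← RR_slice c s l2 l3 m1 m2 k2 k3 n1 n2 u1 u2 w1 w2 hcs,
    ← RR_rho κ σ hκ ⟨1, 0, 0⟩ y]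
  simp only [← rho_cr κ σ hκ, hx, hyy]
  have fA := J_av (fun a => a) (⟨0, 0, 0⟩ : T ℝ) c s l2 l3 m1 m2 hcs
  have fB := J_av (fun a => a) (⟨0, 0, 0⟩ : T ℝ) c s k2 k3 n1 n2 hcs
  have fG := J_gv (fun a => a) (⟨0, 0, 0⟩ : T ℝ) c s g0 u1 u2 h0 w1 w2 hcs
  rw [← hA] at fA
  rw [← hB] at fB
  rw [← hG] at fG
  simp only [zz, J_mk, Prod.mk.injEq] at fA fB fG
  rw [fA.1, fA.2, fB.1, fB.2, fG.1, fG.2]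

theorem nn_nonneg (u : T ℝ) : 0 ≤ nn u := by
  simp only [nn, T.dot]; nlinarith [sq_nonneg u.x, sq_nonneg u.y, sq_nonneg u.z]

theorem nn_zero {u : T ℝ} (h : nn u ≤ 0) : u.x = 0 ∧ u.y = 0 ∧ u.z = 0 := by
  simp only [nn, T.dot] at h
  refine ⟨?_, ?_, ?_⟩ <;> nlinarith [sq_nonneg u.x, sq_nonneg u.y, sq_nonneg u.z]

theorem T5 : St_T5 := by
  intro q v y1 y2 y3 ca sa cb sb g1 g2 g3 g4 hF hca hcb hca0 hcb0 hsc hy3 hP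
  have e1 : T.dot y1 y1 = 1 := hF.d11
  have e22 : T.dot y2 y2 = 1 := hF.d22
  have e12 : T.dot y1 y2 = 0 := hF.d12
  have e3 : T.cr y1 y2 = y3 := hF.cr
  have e13 : T.dot y1 y3 = 0 := by rw [← e3]; simp only [T.dot, T.cr]; ring
  have e23 : T.dot y2 y3 = 0 := by rw [← e3]; simp only [T.dot, T.cr]; ring
  have e33 : T.dot y3 y3 = 1 := by
    have : T.dot (T.cr y1 y2) (T.cr y1 y2) = T.dot y1 y1 * T.dot y2 y2 - T.dot y1 y2 ^ 2 := by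
      simp only [T.dot, T.cr]; ring
    rw [← e3, this, e1, e22, e12]; norm_num
  have t1 : T.dot y1 (sa • y3) = 0 := by
    have : T.dot y1 (sa • y3) = sa * T.dot y1 y3 := by
      simp only [T.dot, T.smul_x, T.smul_y, T.smul_z]
      ring
    rw [this, e13, mul_zero]
  have t2 : T.dot y1 (cb • y2) = 0 := by
    have : T.dot y1 (cb • y2) = cb * T.dot y1 y2 := by
      simp only [T.dot, T.smul_x, T.smul_y, T.smul_z]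
      ring
    rw [this, e12, mul_zero]
  rw [PPn, PP_eq q v y1 _ _ _ _ _ _ e1 (by simp) t1 (by simp) t2] at hP
  set L := T.cr (⟨1, 0, 0⟩ : T ℝ) (ca • ⟨0, 1, 0⟩) with hL
  set L1 := T.cr (⟨1, 0, 0⟩ : T ℝ) (sb • ⟨0, 0, 1⟩) with hL1
  set M := T.cr y1 (sa • y3) with hM
  set M1 := T.cr y1 (cb • y2) with hM1
  set Lg := T.cr (⟨1, 0, 0⟩ : T ℝ) (T.cr (one3.ap ⟨0, 0, 1⟩) ⟨0, 1, 0⟩ +
    (g1 • (⟨0, 1, 0⟩ : T ℝ) + -(g2 • (⟨0, 0, 1⟩ : T ℝ)))) with hLg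
  set Mg := T.cr y1 (-T.cr (one3.ap y3) y2 + (g3 • y2 + -(g4 • y3))) with hMg
  simp only [RR] at hP
  have p1 := nn_nonneg (T.cr L L1)
  have p2 := nn_nonneg (T.cr M M1)
  have p3 := nn_nonneg (T.cr (L + M) (L1 + M1))
  have p4 := nn_nonneg (B1 ⟨1, 0, 0⟩ L L1 (L + M) (L1 + M1) + -Lg)
  have p5 := nn_nonneg (B1 y1 M M1 (L + M) (L1 + M1) + -Mg)
  have p6 := nn_nonneg (B3 ⟨1, 0, 0⟩ y1 L M L1 M1 (L + M) (L1 + M1) + -Lg + -Mg)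
  obtain ⟨z1, -, -⟩ := nn_zero (u := T.cr L L1) (by linarith)
  have z2 := nn_zero (u := T.cr M M1) (by linarith)
  have z3 := nn_zero (u := T.cr (L + M) (L1 + M1)) (by linarith)
  have z4 := nn_zero (u := B1 ⟨1, 0, 0⟩ L L1 (L + M) (L1 + M1) + -Lg) (by linarith)
  have z5 := nn_zero (u := B1 y1 M M1 (L + M) (L1 + M1) + -Mg) (by linarith)
  -- `sb = 0`
  have y2e : T.cr y1 y3 = -y2 := by
    rw [← e3]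
    have : T.cr y1 (T.cr y1 y2) = (T.dot y1 y2) • y1 + -((T.dot y1 y1) • y2) := by
      refine T.ext ?_ ?_ ?_ <;> simp [T.cr, T.dot] <;> ring
    rw [this, e12, e1]
    refine T.ext ?_ ?_ ?_ <;> simp
  have hMv : M = -(sa • y2) := by
    have : T.cr y1 (sa • y3) = sa • T.cr y1 y3 := by
      refine T.ext ?_ ?_ ?_ <;> simp [T.cr] <;> ring
    rw [hM, this, y2e]
    refine T.ext ?_ ?_ ?_ <;> simp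
  have hM1v : M1 = cb • y3 := by
    have : T.cr y1 (cb • y2) = cb • T.cr y1 y2 := by
      refine T.ext ?_ ?_ ?_ <;> simp [T.cr] <;> ring
    rw [hM1, this, e3]
  have hcs : ca * sb = 0 := by
    simp only [hL, hL1, T.cr, T.smul_x, T.smul_y, T.smul_z] at z1
    linarith
  have hsb : sb = 0 := by
    rcases mul_eq_zero.1 hcs with h | h
    · rw [h] at hsc
      nlinarith
    · exact h
  have hcb1 : cb = 1 := by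
    rw [hsb] at hcb
    nlinarith
  have hsa : sa = 0 := by
    have w1 : nn (T.cr M M1) = 0 := by
      simp only [nn, T.dot, z2.1, z2.2.1, z2.2.2]; norm_num
    have w2 : nn (T.cr M M1) = sa ^ 2 * cb ^ 2 * (T.dot y2 y2 * T.dot y3 y3 - T.dot y2 y3 ^ 2) := by
      rw [hMv, hM1v]
      simp only [nn, T.dot, T.cr, T.smul_x, T.smul_y, T.smul_z, T.neg_x, T.neg_y, T.neg_z]
      ring
    rw [w1, e22, e33, e23, hcb1] at w2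
    have : sa ^ 2 = 0 := by linarith
    exact pow_eq_zero_iff (two_ne_zero) |>.1 this
  have hca1 : ca = 1 := by
    rw [hsa] at hca
    nlinarith
  subst hsa hsb hca1 hcb1
  have hLv : L = ⟨0, 0, 1⟩ := by refine T.ext ?_ ?_ ?_ <;> simp [hL, T.cr]
  have hL1v : L1 = ⟨0, 0, 0⟩ := by refine T.ext ?_ ?_ ?_ <;> simp [hL1, T.cr]
  have hM0 : M = ⟨0, 0, 0⟩ := by rw [hMv]; refine T.ext ?_ ?_ ?_ <;> simp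
  have hM10 : M1 = y3 := by rw [hM1v]; refine T.ext ?_ ?_ ?_ <;> simp
  rw [hLv, hL1v, hM0, hM10] at z3 z4 z5
  obtain ⟨z31, z32, -⟩ := z3
  have y31 : y3.x = 0 := by
    simp only [T.cr, T.add_x, T.add_y, T.add_z] at z32
    linarith
  have y32 : y3.y = 0 := by
    simp only [T.cr, T.add_x, T.add_y, T.add_z] at z31
    linarith
  have y33 : y3.z = 1 := by
    simp only [T.dot, y31, y32] at e33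
    nlinarith
  have hy3v : y3 = ⟨0, 0, 1⟩ := T.ext y31 y32 y33
  have y1z : y1.z = 0 := by
    rw [hy3v] at e13
    simp only [T.dot] at e13
    linarith
  have y2z : y2.z = 0 := by
    rw [hy3v] at e23
    simp only [T.dot] at e23
    linarith
  have hdet : y1.x * y2.y - y1.y * y2.x = 1 := by
    have := congrArg T.z e3
    simp only [T.cr, y33] at this
    exact this
  have hLgv : Lg = ⟨0, g2, g1⟩ := by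
    refine T.ext ?_ ?_ ?_ <;> simp [hLg, T.cr, one3, Sym.ap]
  have hMgv : Mg = g4 • y2 + g3 • y3 := by
    have a1 : T.cr (one3.ap y3) y2 = T.cr y3 y2 := by
      refine T.ext ?_ ?_ ?_ <;> simp [T.cr, one3, Sym.ap]
    have a2 : -T.cr y3 y2 = y1 := by
      have : -T.cr (T.cr y1 y2) y2 = (T.dot y2 y2) • y1 + -((T.dot y1 y2) • y2) := by
        refine T.ext ?_ ?_ ?_ <;> simp [T.cr, T.dot] <;> ring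
      rw [← e3, this, e22, e12]
      refine T.ext ?_ ?_ ?_ <;> simp
    have a3 : T.cr y1 (y1 + (g3 • y2 + -(g4 • y3))) = g3 • T.cr y1 y2 + -(g4 • T.cr y1 y3) := by
      refine T.ext ?_ ?_ ?_ <;> simp [T.cr] <;> ring
    rw [hMg, a1, a2, a3, e3, y2e]
    refine T.ext ?_ ?_ ?_ <;> simp <;> ring
  have hB1 : B1 (⟨1, 0, 0⟩ : T ℝ) ⟨0, 0, 1⟩ ⟨0, 0, 0⟩ ((⟨0, 0, 1⟩ : T ℝ) + ⟨0, 0, 0⟩)
      ((⟨0, 0, 0⟩ : T ℝ) + y3) = ⟨0, 0, 0⟩ := by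
    refine T.ext ?_ ?_ ?_ <;> simp [B1, T.cr, T.dot, y31]
  have hB2 : B1 y1 ⟨0, 0, 0⟩ y3 ((⟨0, 0, 1⟩ : T ℝ) + ⟨0, 0, 0⟩)
      ((⟨0, 0, 0⟩ : T ℝ) + y3) = ⟨0, 0, 0⟩ := by
    refine T.ext ?_ ?_ ?_ <;> simp [B1, T.cr, T.dot, y1z]
  rw [hB1, hLgv] at z4
  rw [hB2, hMgv, hy3v] at z5
  simp only [T.add_x, T.add_y, T.add_z, T.neg_x, T.neg_y, T.neg_z, T.smul_x, T.smul_y,
    T.smul_z] at z4 z5
  have q1 : g1 = 0 := by linarith [z4.2.2]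
  have q2 : g2 = 0 := by linarith [z4.2.1]
  have q3 : g3 = 0 := by
    have := z5.2.2
    rw [y2z] at this
    linarith
  have q4 : g4 = 0 := by
    have w1 : g4 * y2.x = 0 := by linarith [z5.1]
    have w2 : g4 * y2.y = 0 := by linarith [z5.2.1]
    linear_combination (-g4) * hdet + y1.x * w2 - y1.y * w1
  exact ⟨rfl, rfl, hy3v, q1, q2, q3, q4⟩

end H66HO
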